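import Pool.Agent.W598.IA.Stm

set_option autoImplicit false

namespace Pool.Agent.W628.IA

open Pool.Agent.W598.IA Matrix

lemma lin_ext {A B : S2} (h : ∀ v, lin A v = lin B v) : A = B := by
  apply Subtype.ext
  apply Matrix.mulVec_injective
  funext v
  exact h v

def Tk (k : ℤ) : S2 := ⟨!![1, k; 0, 1], by simp [Matrix.det_fin_two]⟩
def Uk (k : ℤ) : S2 := ⟨!![1, 0; k, 1], by simp [Matrix.det_fin_two]⟩

lemma Tk_mul (a b : ℤ) : Tk a * Tk b = Tk (a + b) := by
  apply Subtype.ext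
  rw [Matrix.SpecialLinearGroup.coe_mul]
  simp only [Tk]
  ext i j
  fin_cases i <;> fin_cases j <;> simp [Matrix.mul_apply, Fin.sum_univ_two, add_comm]

lemma Uk_mul (a b : ℤ) : Uk a * Uk b = Uk (a + b) := by
  apply Subtype.ext
  rw [Matrix.SpecialLinearGroup.coe_mul]
  simp only [Uk]
  ext i j
  fin_cases i <;> fin_cases j <;> simp [Matrix.mul_apply, Fin.sum_univ_two, add_comm]

lemma Tk_zero : Tk 0 = 1 := by
  apply Subtype.ext
  simp only [Tk, Matrix.SpecialLinearGroup.coe_one]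
  ext i j
  fin_cases i <;> fin_cases j <;> simp

lemma Uk_zero : Uk 0 = 1 := by
  apply Subtype.ext
  simp only [Uk, Matrix.SpecialLinearGroup.coe_one]
  ext i j
  fin_cases i <;> fin_cases j <;> simp

lemma Tk_pow (n : ℕ) : Tk 1 ^ n = Tk n := by
  induction n with
  | zero => simp [Tk_zero]
  | succ n ih => rw [pow_succ, ih, Tk_mul]; push_cast; rfl

lemma Uk_pow (n : ℕ) : Uk 1 ^ n = Uk n := by
  induction n with
  | zero => simp [Uk_zero]
  | succ n ih => rw [pow_succ, ih, Uk_mul]; push_cast; rfl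

/-- commuting with the conjugates by `T^k`, `U^k` forces a diagonal matrix -/
lemma sq_one (X : S2) (k l : ℤ) (hk : k ≠ 0) (hl : l ≠ 0)
    (h1 : X * (Tk k * X * Tk (-k)) = (Tk k * X * Tk (-k)) * X)
    (h2 : X * (Uk l * X * Uk (-l)) = (Uk l * X * Uk (-l)) * X) : X ^ 2 = 1 := by
  have hA : X.1.det = 1 := X.2
  have e1 : X.1 * (!![1, k; 0, 1] * X.1 * !![1, -k; 0, 1])
      = (!![1, k; 0, 1] * X.1 * !![1, -k; 0, 1]) * X.1 := congrArg Subtype.val h1
  have e2 : X.1 * (!![1, 0; l, 1] * X.1 * !![1, 0; -l, 1])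
      = (!![1, 0; l, 1] * X.1 * !![1, 0; -l, 1]) * X.1 := congrArg Subtype.val h2
  have hX : (X ^ 2).1 = X.1 * X.1 := by
    rw [pow_two]
    rfl
  have hgoal : X.1 * X.1 = 1 → X ^ 2 = 1 := by
    intro h
    apply Subtype.ext
    rw [hX, h]
    rfl
  apply hgoal
  clear hgoal hX h1 h2
  generalize X.1 = A at hA e1 e2 ⊢
  have hdet : A 0 0 * A 1 1 - A 0 1 * A 1 0 = 1 := by
    rw [← Matrix.det_fin_two]; exact hA
  rw [Matrix.eta_fin_two A] at e1 e2
  simp only [Matrix.mul_fin_two] at e1 e2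
  have f1 := congrFun (congrFun e1 1) 0
  have f2 := congrFun (congrFun e2 0) 1
  simp at f1 f2
  have hc : A 1 0 = 0 := by
    have : 2 * k * (A 1 0) ^ 2 = 0 := by linear_combination f1
    rcases mul_eq_zero.mp this with h | h
    · exfalso; apply hk; linarith
    · exact pow_eq_zero_iff (two_ne_zero) |>.mp h
  have hb : A 0 1 = 0 := by
    have : 2 * l * (A 0 1) ^ 2 = 0 := by linear_combination f2
    rcases mul_eq_zero.mp this with h | h
    · exfalso; apply hl; linarith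
    · exact pow_eq_zero_iff (two_ne_zero) |>.mp h
  have had : A 0 0 * A 1 1 = 1 := by rw [hc] at hdet; linarith
  have h11 : A 0 0 ^ 2 = 1 ∧ A 1 1 ^ 2 = 1 := by
    rcases Int.eq_one_or_neg_one_of_mul_eq_one had with h | h
    · rw [h] at had ⊢
      have : A 1 1 = 1 := by linarith
      rw [this]; norm_num
    · rw [h] at had ⊢
      have : A 1 1 = -1 := by linarith
      rw [this]; norm_num
  ext i j
  fin_cases i <;> fin_cases j <;> simp [Matrix.mul_apply, Fin.sum_univ_two, hb, hc]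
  · nlinarith [h11.1]
  · nlinarith [h11.2]

section
variable {F : Type} [Group F] {ρ : F →* S2}

lemma trans_iff (hρ : Function.Injective ρ)
    (htf : ∀ (x : F) (n : ℕ), n ≠ 0 → x ^ n = 1 → x = 1) (hfi : ρ.range.FiniteIndex) (g : SD ρ) :
    g.l = 1 ↔ ∀ h : SD ρ, g * (h * g * h⁻¹) = (h * g * h⁻¹) * g := by
  constructor
  · intro hg h
    have hl : (h * g * h⁻¹).l = 1 := by simp [hg]
    generalize h * g * h⁻¹ = u at hl ⊢
    apply SD.ext
    · rw [SD.mul_l, SD.mul_l, hl, hg]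
    · rw [SD.mul_t, SD.mul_t, hl, hg, map_one, lin_one, lin_one, add_comm]
  · intro hg
    have hcomm : ∀ y : F, ρ g.l * (ρ y * ρ g.l * (ρ y)⁻¹) = (ρ y * ρ g.l * (ρ y)⁻¹) * ρ g.l := by
      intro y
      have h1 := congrArg SD.l (hg ⟨y, 0⟩)
      simp only [SD.mul_l, SD.inv_l] at h1
      have h2 := congrArg ρ h1
      simpa only [map_mul, map_inv] using h2
    obtain ⟨k, hk0, -, hk⟩ := Subgroup.exists_pow_mem_of_index_ne_zero hfi.index_ne_zero (Tk 1)
    obtain ⟨l, hl0, -, hl⟩ := Subgroup.exists_pow_mem_of_index_ne_zero hfi.index_ne_zero (Uk 1)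
    rw [Tk_pow] at hk
    rw [Uk_pow] at hl
    obtain ⟨y, hy⟩ := hk
    obtain ⟨z, hz⟩ := hl
    have hTinv : (Tk (k : ℤ))⁻¹ = Tk (-(k : ℤ)) := by
      rw [inv_eq_iff_mul_eq_one, Tk_mul]
      simp [Tk_zero]
    have hUinv : (Uk (l : ℤ))⁻¹ = Uk (-(l : ℤ)) := by
      rw [inv_eq_iff_mul_eq_one, Uk_mul]
      simp [Uk_zero]
    have h1 := hcomm y
    have h2 := hcomm z
    rw [hy, hTinv] at h1
    rw [hz, hUinv] at h2
    have h3 := sq_one (ρ g.l) k l (by exact_mod_cast hk0.ne') (by exact_mod_cast hl0.ne') h1 h2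
    rw [← map_pow] at h3
    have h4 : g.l ^ 2 = 1 := hρ (by rw [h3, map_one])
    exact htf _ 2 two_ne_zero h4

lemma trans_iso (hρ : Function.Injective ρ)
    (htf : ∀ (x : F) (n : ℕ), n ≠ 0 → x ^ n = 1 → x = 1) (hfi : ρ.range.FiniteIndex)
    (ψ : SD ρ ≃* SD ρ) {g : SD ρ} (hg : g.l = 1) : (ψ g).l = 1 := by
  rw [trans_iff hρ htf hfi] at hg ⊢
  intro h
  have := congrArg ψ (hg (ψ.symm h))
  simpa only [map_mul, map_inv, MulEquiv.apply_symm_apply] using this

/-- decomposition -/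
lemma decomp (g : SD ρ) : g = ⟨1, g.t⟩ * ⟨g.l, 0⟩ := by
  apply SD.ext
  · simp
  · simp [lin_zero]

lemma psi_l (hρ : Function.Injective ρ)
    (htf : ∀ (x : F) (n : ℕ), n ≠ 0 → x ^ n = 1 → x = 1) (hfi : ρ.range.FiniteIndex)
    (ψ : SD ρ ≃* SD ρ) (g : SD ρ) : (ψ g).l = (ψ ⟨g.l, 0⟩).l := by
  conv_lhs => rw [decomp g, map_mul, SD.mul_l, trans_iso hρ htf hfi ψ (g := ⟨1, g.t⟩) rfl, one_mul]

end

theorem main : S_AUT := by
  intro F _ ρ hρ htf hfi ψ
  have hl := psi_l hρ htf hfi ψ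
  have hl' := psi_l hρ htf hfi ψ.symm
  -- the automorphism of `F`
  let α : F ≃* F :=
    { toFun := fun x => (ψ ⟨x, 0⟩).l
      invFun := fun x => (ψ.symm ⟨x, 0⟩).l
      left_inv := fun x => by
        show (ψ.symm ⟨(ψ ⟨x, 0⟩).l, 0⟩).l = x
        rw [← hl', MulEquiv.symm_apply_apply]
      right_inv := fun x => by
        show (ψ ⟨(ψ.symm ⟨x, 0⟩).l, 0⟩).l = x
        rw [← hl, MulEquiv.apply_symm_apply]
      map_mul' := fun x y => by
        show (ψ ⟨x * y, 0⟩).l = (ψ ⟨x, 0⟩).l * (ψ ⟨y, 0⟩).l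
        rw [← SD.mul_l, ← map_mul]
        congr 2
        apply SD.ext
        · rfl
        · simp [lin_zero] }
  have hα : ∀ g, (ψ g).l = α g.l := hl
  refine ⟨α, hα, ?_⟩
  -- the action on translations
  have hP : ∀ (ψ : SD ρ ≃* SD ρ) (a : Z2), ψ ⟨1, a⟩ = ⟨1, (ψ ⟨1, a⟩).t⟩ := by
    intro ψ a
    apply SD.ext
    · exact trans_iso hρ htf hfi ψ rfl
    · rfl
  have htr : ∀ a b : Z2, (⟨1, a⟩ : SD ρ) * ⟨1, b⟩ = ⟨1, a + b⟩ := by
    intro a b
    apply SD.ext
    · simp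
    · simp [lin_one]
  let P : (ψ : SD ρ ≃* SD ρ) → Z2 →+ Z2 := fun ψ =>
    { toFun := fun a => (ψ ⟨1, a⟩).t
      map_zero' := by
        have : (⟨1, 0⟩ : SD ρ) = 1 := rfl
        rw [this, map_one]
        rfl
      map_add' := fun a b => by
        rw [← htr a b, map_mul, hP ψ a, hP ψ b, htr] }
  have hPdef : ∀ (ψ : SD ρ ≃* SD ρ) (a : Z2), ψ ⟨1, a⟩ = ⟨1, P ψ a⟩ := hP
  have hPinv : ∀ a, P ψ.symm (P ψ a) = a := by
    intro a
    have h1 : ψ.symm (ψ ⟨1, a⟩) = ⟨1, a⟩ := MulEquiv.symm_apply_apply _ _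
    rw [hPdef ψ, hPdef ψ.symm] at h1
    exact congrArg SD.t h1
  -- equivariance
  have heq : ∀ (x : F) (a : Z2), P ψ (lin (ρ x) a) = lin (ρ (α x)) (P ψ a) := by
    intro x a
    have h1 : (⟨x, 0⟩ : SD ρ) * ⟨1, a⟩ = ⟨1, lin (ρ x) a⟩ * ⟨x, 0⟩ := by
      apply SD.ext
      · simp
      · simp [lin_zero]
    have h2 := congrArg SD.t (congrArg ψ h1)
    rw [map_mul, map_mul, hPdef ψ a, hPdef ψ (lin (ρ x) a)] at h2
    simp only [SD.mul_t, map_one, lin_one] at h2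
    have h3 : (ψ ⟨x, 0⟩).l = α x := rfl
    rw [h3, add_comm] at h2
    exact (add_right_cancel h2).symm
  have heqn : ∀ (j : ℕ) (x : F) (a : Z2),
      (P ψ)^[j] (lin (ρ x) a) = lin (ρ ((α : F → F)^[j] x)) ((P ψ)^[j] a) := by
    intro j
    induction j with
    | zero => intro x a; rfl
    | succ j ih =>
      intro x a
      rw [Function.iterate_succ_apply, Function.iterate_succ_apply, Function.iterate_succ_apply,
        heq, ih]
  -- the matrix of `P`
  let M : Matrix (Fin 2) (Fin 2) ℤ := LinearMap.toMatrix' (P ψ).toIntLinearMap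
  let M' : Matrix (Fin 2) (Fin 2) ℤ := LinearMap.toMatrix' (P ψ.symm).toIntLinearMap
  have hM : ∀ a, M.mulVec a = P ψ a := fun a => LinearMap.toMatrix'_mulVec _ a
  have hM' : ∀ a, M'.mulVec a = P ψ.symm a := fun a => LinearMap.toMatrix'_mulVec _ a
  have hMM : M' * M = 1 := by
    apply Matrix.mulVec_injective
    funext a
    rw [← Matrix.mulVec_mulVec, hM, hM', hPinv, Matrix.one_mulVec]
  have hdet : M'.det * M.det = 1 := by rw [← Matrix.det_mul, hMM, Matrix.det_one]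
  have hdet2 : (M ^ 2).det = 1 := by
    rw [Matrix.det_pow]
    rcases Int.eq_one_or_neg_one_of_mul_eq_one' hdet with ⟨_, h⟩ | ⟨_, h⟩ <;> rw [h] <;> norm_num
  let N : S2 := ⟨M ^ 2, hdet2⟩
  obtain ⟨i, hi0, -, hi⟩ := Subgroup.exists_pow_mem_of_index_ne_zero hfi.index_ne_zero N
  obtain ⟨f, hf⟩ := hi
  have hPow : ∀ (n : ℕ) (a : Z2), (M ^ n).mulVec a = (P ψ)^[n] a := by
    intro n
    induction n with
    | zero => intro a; simp
    | succ n ih =>
      intro a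
      rw [pow_succ, ← Matrix.mulVec_mulVec, ih, hM, Function.iterate_succ_apply]
  have hfl : ∀ a, lin (ρ f) a = (P ψ)^[2 * i] a := by
    intro a
    rw [hf]
    unfold lin
    rw [Matrix.SpecialLinearGroup.coe_pow, ← pow_mul]
    exact hPow _ _
  refine ⟨2 * i, by omega, f, fun x => ?_⟩
  have h1 : ρ (f * x) = ρ ((α : F → F)^[2 * i] x * f) := by
    apply lin_ext
    intro v
    rw [map_mul, map_mul, lin_mul, lin_mul, hfl, hfl]
    exact heqn _ _ _
  have h2 := hρ h1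
  rw [h2, mul_inv_cancel_right]

end Pool.Agent.W628.IA
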